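import Pool.Agent.Y661.BG.All

/-!
# Gaussian disorder, `d ≥ 3`: eigenfunctions and spectral measures are flat beyond the kinetic scale

`H_σ = Δ + σ ξ` on `ℤ^d`, `(Δψ)(x) = ∑_{|y-x|=1} ψ(y)`, iid standard Gaussian `ξ`, weak coupling.
-/

set_option autoImplicit false

open scoped BigOperators
open MeasureTheory ProbabilityTheory

namespace Pool.Agent.Results.MP_1906c1_mp.BeyondKineticScale

/-- `(H_σ ψ)(x) = ∑_{|y-x|=1} ψ(y) + σ ξ(x) ψ(x)` -/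
noncomputable def H {d : ℕ} (σ : ℝ) (ξ : (Fin d → ℤ) → ℝ) (ψ : (Fin d → ℤ) → ℂ)
    (x : Fin d → ℤ) : ℂ :=
  ∑ i : Fin d, (ψ (x + Pi.single i 1) + ψ (x - Pi.single i 1)) + ((σ * ξ x : ℝ) : ℂ) * ψ x

/-- square summable functions -/
def SqSummable {d : ℕ} (u : (Fin d → ℤ) → ℂ) : Prop := Summable fun x => ‖u x‖ ^ 2

/-- `μ` is the spectral measure of the vector `g`: a finite measure whose Borel transform
`∫ (E - z)⁻¹ dμ(E)` is `⟨g, (A - z)⁻¹ g⟩` for all non-real `z` -/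
def IsSpectralMeasure {d : ℕ} (A : ((Fin d → ℤ) → ℂ) → (Fin d → ℤ) → ℂ) (g : (Fin d → ℤ) → ℂ)
    (μ : Measure ℝ) : Prop :=
  IsFiniteMeasure μ ∧ ∀ z : ℂ, z.im ≠ 0 → ∃ u : (Fin d → ℤ) → ℂ, SqSummable u ∧
    (∀ x, A u x - z * u x = g x) ∧ ∫ E : ℝ, ((E : ℂ) - z)⁻¹ ∂μ = ∑' x, (starRingEnd ℂ) (g x) * u x

/-- **Theorem.** -/
theorem result (d : ℕ) (hd : 3 ≤ d) :
    ∃ σ₀ K : ℝ, 0 < σ₀ ∧ 0 < K ∧ ∀ σ : ℝ, 0 < |σ| → |σ| ≤ σ₀ →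
      ∃ G : Set ((Fin d → ℤ) → ℝ), MeasurableSet G ∧
        1 - 2 * Real.exp (-|σ| ^ (-(1 / 100) : ℝ)) ≤
          (Measure.infinitePi fun _ : Fin d → ℤ => gaussianReal 0 1).real G ∧
        ∀ ξ ∈ G,
          -- spectral measures of vectors supported in the box of radius `exp(|σ|^(-1/100))`
          (∀ (g : (Fin d → ℤ) → ℂ) (B : Finset (Fin d → ℤ)),
            (∀ a ∈ B, ‖a‖ ≤ Real.exp (|σ| ^ (-(1 / 100) : ℝ))) → (∀ a, a ∉ B → g a = 0) →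
            ∀ μ : Measure ℝ, IsSpectralMeasure (H σ ξ) g μ →
            ∀ E s : ℝ, |σ| ^ (17 / 8 : ℝ) ≤ s →
            μ.real (Set.Icc (E - s) (E + s)) ≤
              K * Real.log (1 / |σ|) * s * (∑ a ∈ B, ‖g a‖) ^ 2) ∧
          -- eigenfunctions, at every energy
          (∀ (E : ℝ) (u : (Fin d → ℤ) → ℂ), SqSummable u →
            (∀ x, H σ ξ u x = (E : ℂ) * u x) →
            ∀ a : Fin d → ℤ, ‖a‖ ≤ Real.exp (|σ| ^ (-(1 / 100) : ℝ)) →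
            ‖u a‖ ^ 2 ≤ K * Real.log (1 / |σ|) * |σ| ^ (17 / 8 : ℝ) * ∑' x, ‖u x‖ ^ 2) := by
  obtain ⟨s0, K, hs0, hK, h⟩ := Pool.Agent.Y661.BG.main d hd
  refine ⟨s0, K, hs0, hK, fun σ h1 h2 => ?_⟩
  obtain ⟨G, hG, hP, hF⟩ := h σ h1 h2
  refine ⟨G, hG, hP, fun ξ hξ => ⟨fun g B hB hg μ hμ E s hs => ?_, fun E u hu he a ha => ?_⟩⟩
  · exact (hF ξ hξ).1 g B hB hg μ hμ.1 hμ.2 E s hs
  · exact (hF ξ hξ).2 E u hu he a ha

end Pool.Agent.Results.MP_1906c1_mp.BeyondKineticScale
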