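import Pool.Agent.Y661.GD.All

/-!
# Gaussian disorder, `d ≥ 3`: past the kinetic scale the resolvent profile is that of Brownian motion

`H_σ = Δ + σ ξ` on `ℤ^d`, `(Δψ)(x) = ∑_{|y-x|=1} ψ(y)`, iid standard Gaussian `ξ`, weak coupling.
With probability at least `1 - exp(-|σ|^(-1/1000))`, for all sites `|a| ≤ exp(|σ|^(-1/1000))`, all
energies `|E| ≤ 2 d - κ` and all `|σ|^(2+1/40) ≤ η ≤ |σ|^(2+1/80)`, the function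
`u = (H_σ - E - iη)⁻¹ δ_a` satisfies, with `r = (η σ²)^(1/2)` and all `|q|² ≤ K`,
`η ∑_x e^{i r q·(x - a)} |u(x)|² = Im g₀(E) / (1 + D(E) |q|²) + O(|σ|^(1/200))`.
-/

set_option autoImplicit false

open scoped BigOperators
open MeasureTheory ProbabilityTheory

namespace Pool.Agent.Results.MP_1906c1_mp.DiffusionProfile

/-- `(H_σ ψ)(x) = ∑_{|y-x|=1} ψ(y) + σ ξ(x) ψ(x)` -/
noncomputable def H {d : ℕ} (σ : ℝ) (ξ : (Fin d → ℤ) → ℝ) (ψ : (Fin d → ℤ) → ℂ)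
    (x : Fin d → ℤ) : ℂ :=
  ∑ i : Fin d, (ψ (x + Pi.single i 1) + ψ (x - Pi.single i 1)) + ((σ * ξ x : ℝ) : ℂ) * ψ x

/-- `u = (H_σ - E - iη)⁻¹ δ_a` in `ℓ²(ℤ^d)` -/
structure IsGreen {d : ℕ} (σ : ℝ) (ξ : (Fin d → ℤ) → ℝ) (a : Fin d → ℤ) (E η : ℝ)
    (u : (Fin d → ℤ) → ℂ) : Prop where
  sq : Summable fun x => ‖u x‖ ^ 2
  eq : ∀ x, H σ ξ u x - ((E : ℂ) + (η : ℂ) * Complex.I) * u x = if x = a then 1 else 0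

/-- `∫_0^1 exp(-is · 2 cos 2πx) dx` -/
noncomputable def p0 (s : ℝ) : ℂ :=
  ∫ x in (0 : ℝ)..1, Complex.exp (Complex.I * ((-s * (2 * Real.cos (2 * Real.pi * x)) : ℝ) : ℂ))

/-- `∫_0^1 sin²(2πx) exp(-is · 2 cos 2πx) dx` -/
noncomputable def p1 (s : ℝ) : ℂ :=
  ∫ x in (0 : ℝ)..1, ((Real.sin (2 * Real.pi * x) ^ 2 : ℝ) : ℂ) *
    Complex.exp (Complex.I * ((-s * (2 * Real.cos (2 * Real.pi * x)) : ℝ) : ℂ))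

/-- the boundary value `∫_{[0,1]^d} (∑ 2 cos 2πk_i - E - i0)⁻¹ dk` -/
noncomputable def g0 (d : ℕ) (E : ℝ) : ℂ :=
  Complex.I * ∫ s in Set.Ioi (0 : ℝ), p0 s ^ d * Complex.exp (Complex.I * (E : ℂ) * s)

/-- the boundary value `∫_{[0,1]^d} sin²(2πk_1) (∑ 2 cos 2πk_i - E - i0)⁻¹ dk` -/
noncomputable def g1 (d : ℕ) (E : ℝ) : ℂ :=
  Complex.I * ∫ s in Set.Ioi (0 : ℝ), p1 s * p0 s ^ (d - 1) * Complex.exp (Complex.I * (E : ℂ) * s)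

/-- the diffusion constant at the energy `E` -/
noncomputable def D (d : ℕ) (E : ℝ) : ℝ := (g1 d E).im / (g0 d E).im ^ 2

theorem g0_eq (d : ℕ) (E : ℝ) : g0 d E = Pool.Agent.TH794.QD.GF (Pool.Agent.TH794.QD.F0 d) E := rfl

theorem g1_eq (d : ℕ) (E : ℝ) : g1 d E = Pool.Agent.TH794.QD.GF (Pool.Agent.TH794.QD.F1 d) E := rfl

theorem ph_eq {d : ℕ} (r : ℝ) (q : Fin d → ℝ) (x a : Fin d → ℤ) :
    Pool.Agent.TH794.HK.ph (fun i => r * q i) (x - a) =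
      Complex.exp (Complex.I * ((r * ∑ i, q i * ((x i : ℝ) - a i) : ℝ) : ℂ)) := by
  unfold Pool.Agent.TH794.HK.ph
  rw [Finset.mul_sum]
  congr 3
  refine Finset.sum_congr rfl fun i _ => ?_
  simp only [Pi.sub_apply, Int.cast_sub]
  ring

/-- **Theorem.** -/
theorem result (d : ℕ) (hd : 3 ≤ d) (κ : ℝ) (hκ : 0 < κ) (hκ1 : κ ≤ 1) :
    -- inside the band, `0 < D(E) ≤ 1 / m`
    (∃ m : ℝ, 0 < m ∧ ∀ E : ℝ, |E| ≤ 2 * d - κ → m ≤ (g1 d E).im ∧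
      (g1 d E).im ≤ (g0 d E).im) ∧
    ∀ K : ℝ, 0 ≤ K → ∃ σ₀ : ℝ, 0 < σ₀ ∧ ∀ σ : ℝ, 0 < |σ| → |σ| ≤ σ₀ →
      ∃ G : Set ((Fin d → ℤ) → ℝ), MeasurableSet G ∧
        1 - Real.exp (-|σ| ^ (-(1 / 1000) : ℝ)) ≤
          (Measure.infinitePi fun _ : Fin d → ℤ => gaussianReal 0 1).real G ∧
        ∀ ξ ∈ G, ∀ a : Fin d → ℤ, ‖a‖ ≤ Real.exp (|σ| ^ (-(1 / 1000) : ℝ)) →
          ∀ E : ℝ, |E| ≤ 2 * d - κ →
          ∀ η : ℝ, |σ| ^ (81 / 40 : ℝ) ≤ η → η ≤ |σ| ^ (161 / 80 : ℝ) →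
            (∃ u, IsGreen σ ξ a E η u) ∧
            ∀ u, IsGreen σ ξ a E η u → ∀ q : Fin d → ℝ, ∑ i, q i ^ 2 ≤ K →
              ‖(η : ℂ) * ∑' x, Complex.exp (Complex.I *
                  ((Real.sqrt (η * σ ^ 2) * ∑ i, q i * ((x i : ℝ) - a i) : ℝ) : ℂ)) *
                  ((‖u x‖ ^ 2 : ℝ) : ℂ) -
                (((g0 d E).im / (1 + D d E * ∑ i, q i ^ 2) : ℝ) : ℂ)‖ ≤
                |σ| ^ (1 / 200 : ℝ) := by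
  obtain ⟨h1, h2⟩ := Pool.Agent.Y661.GD.main d hd κ hκ hκ1
  refine ⟨h1, fun K hK => ?_⟩
  obtain ⟨s0, hs0, h3⟩ := h2 K hK
  refine ⟨s0, hs0, fun σ hσ hσ0 => ?_⟩
  obtain ⟨G, hG, hP, hL⟩ := h3 σ hσ hσ0
  refine ⟨G, hG, hP, fun ξ hξ a ha E hE η hη1 hη2 => ?_⟩
  obtain ⟨⟨u0, hu0⟩, h4⟩ := hL ξ hξ a ha E hE η hη1 hη2
  refine ⟨⟨u0, hu0.1, hu0.2⟩, fun u hu q hq => ?_⟩
  have h5 := h4 u ⟨hu.sq, hu.eq⟩ q hq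
  simp only [ph_eq] at h5
  rw [← g0_eq, ← g1_eq, mul_comm (∑ i, q i ^ 2)] at h5
  exact h5

end Pool.Agent.Results.MP_1906c1_mp.DiffusionProfile
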