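import Pool.Agent.Y661.ED.All

/-!
# Gaussian disorder, `d ≥ 3`: the effective band edge is at `2d + G_d σ² + o(σ²)`

`H_σ = Δ + σ ξ` on `ℤ^d`, `d ≥ 3`, `(Δψ)(x) = ∑_{|y-x|=1} ψ(y)`, iid standard Gaussian `ξ`, weak
coupling. `G_d = ∫_{[0,1]^d} (∑ (2 - 2 cos 2πx_i))⁻¹ dx` is the Green function of the lattice
Laplacian at the origin. For every `δ > 0` and small `σ`
* there is exponential localization at the energies `|E| ≥ 2d + (G_d + δ) σ²`;
* with probability at least `1 - exp(-k √δ / |σ|)` every `ℓ²`-eigenfunction `u` with energy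
  `|E| ≥ 2d + (G_d - δ) σ²` satisfies `|u(x)|² ≤ K (δ σ²)^{d/2} ‖u‖²` at all sites `x` of the box of
  radius `exp(k √δ / |σ|)`; `k`, `K` depend only on `d`;
* on tori of side between `|σ|^(-3/2)` and `|σ|^(-7/4)` the top eigenvector is flat up to the factor
  `1 + δ` and the top eigenvalue is within `δ σ²` of `2d + G_d σ²`.
In the starting results `LocalizationToEdge`, `ScaleAtEdge`, `ThreeDimEdge` (whose definitions are
used) the edge is some number within `1` of `2d`.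
-/

set_option autoImplicit false

open scoped BigOperators ENNReal
open MeasureTheory ProbabilityTheory

namespace Pool.Agent.Results.MP_1906c1_mp.EdgeAsymptotics

open Pool.Agent.Results.MP_1906c1_mp.ScaleAtEdge

/-- the Green function of the lattice Laplacian at the origin,
`∫_{[0,1]^d} (∑ (2 - 2 cos 2πx_i))⁻¹ dx` -/
noncomputable def G (d : ℕ) : ℝ :=
  ∫ x in Set.pi Set.univ (fun _ : Fin d => Set.Icc (0 : ℝ) 1),
    (∑ i, (2 - 2 * Real.cos (2 * Real.pi * x i)))⁻¹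

/-- **Theorem.** -/
theorem result (d : ℕ) (hd : 3 ≤ d) : 0 < G d ∧ ∃ k K : ℝ, 0 < k ∧ 0 < K ∧
    ∀ δ : ℝ, 0 < δ → δ ≤ 1 → ∃ σ₀ : ℝ, 0 < σ₀ ∧ ∀ σ : ℝ, 0 < |σ| → |σ| ≤ σ₀ →
      -- (1) exponential localization for `|E| ≥ 2d + (G_d + δ) σ²`
      (∀ᵐ ξ ∂(Measure.infinitePi fun _ : Fin d → ℤ => gaussianReal 0 1),
        Localized (H σ ξ) {E | 2 * d + (G d + δ) * σ ^ 2 ≤ |E|}
          (k * Real.sqrt δ * |σ| / Real.log (1 / |σ|))) ∧
      -- (2) `ℓ²`-eigenfunctions with `|E| ≥ 2d + (G_d - δ) σ²` are spread out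
      (∃ A : Set ((Fin d → ℤ) → ℝ), MeasurableSet A ∧
        1 - Real.exp (-(k * Real.sqrt δ / |σ|)) ≤
          (Measure.infinitePi fun _ : Fin d → ℤ => gaussianReal 0 1).real A ∧
        ∀ ξ ∈ A, ∀ E : ℝ, 2 * d + (G d - δ) * σ ^ 2 ≤ |E| →
          SpreadOut σ ξ E (K * (δ * σ ^ 2) ^ ((d : ℝ) / 2)) (Real.exp (k * Real.sqrt δ / |σ|))) ∧
      -- (3) on tori the top eigenvector is flat and the top eigenvalue is `2d + (G_d ± δ) σ²`
      ∀ (L : ℕ) [NeZero L], |σ| ^ (-(3 / 2) : ℝ) ≤ L → (L : ℝ) ≤ |σ| ^ (-(7 / 4) : ℝ) →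
        ∃ A : Set (T d L → ℝ), MeasurableSet A ∧
          1 - Real.exp (-(σ₀ * |σ| ^ (-(1 / 4) : ℝ))) ≤
            (Measure.pi fun _ : T d L => gaussianReal 0 1).real A ∧
          ∀ ξ ∈ A, ∃ (E : ℝ) (ψ : T d L → ℝ), |E - (2 * d + G d * σ ^ 2)| ≤ δ * σ ^ 2 ∧
            (∀ x, 1 ≤ ψ x ∧ ψ x ≤ 1 + δ) ∧ ∀ x, HT σ ξ ψ x = E * ψ x :=
  Pool.Agent.Y661.ED.main d hd

end Pool.Agent.Results.MP_1906c1_mp.EdgeAsymptotics
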