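import Pool.Agent.Y661.EX.GauA

/-!
# Gaussian disorder, `d ≥ 4`: the effective band edge has a complete asymptotic expansion

`H_σ = Δ + σ ξ` on `ℤ^d`, `d ≥ 4`, `(Δψ)(x) = ∑_{|y-x|=1} ψ(y)`, iid standard Gaussian `ξ`, weak
coupling.  There are numbers `a 0 = 2d`, `a 1 = G_d`, `a 2`, ... and an effective band edge
`Es(σ) = a 0 + a 1 σ² + ... + a N σ^(2N) + O(σ^(2N+2))` for every `N`, such that for all
`κ ≥ exp(-k/σ²)` (`exp(-k/σ)` if `d = 4`)
* there is exponential localization at the energies `|E| ≥ Es(σ) + κ`;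
* with probability at least `1 - exp(-k/σ²)` every `ℓ²`-eigenfunction `u` with `|E| ≥ Es(σ) - κ`
  satisfies `|u(x)|² ≤ K κ^{d/2} ‖u‖²` at all sites `x` of the box of radius `exp(k/σ²)`;
* on tori of side `L ≤ exp(k/σ²)` the top eigenvector is flat and the top eigenvalue is
  `Es(σ) + O(1/L²)`.
`a n` is the limit, as `L → ∞`, of the expectation of the coefficient of `σ^(2n)` in the Taylor
expansion at `σ = 0` of the top eigenvalue of `H_σ` on the torus of side `L`.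
-/

set_option autoImplicit false

open scoped BigOperators ENNReal Topology
open MeasureTheory ProbabilityTheory Filter

namespace Pool.Agent.Results.MP_1906c1_mp.EdgeExpansion

open Pool.Agent.Results.MP_1906c1_mp.ScaleAtEdge

/-- the Green function of the lattice Laplacian at the origin,
`∫_{[0,1]^d} (∑ (2 - 2 cos 2πx_i))⁻¹ dx` -/
noncomputable def G (d : ℕ) : ℝ :=
  ∫ x in Set.pi Set.univ (fun _ : Fin d => Set.Icc (0 : ℝ) 1),
    (∑ i, (2 - 2 * Real.cos (2 * Real.pi * x i)))⁻¹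

/-- `e n` are the Taylor coefficients at `σ = 0` of the top eigenvalue of `H_σ` on the torus, that
is, the eigenvalue with a positive eigenvector -/
def IsTopTaylor {d L : ℕ} [NeZero L] (ξ : T d L → ℝ) (e : ℕ → ℝ) : Prop :=
  ∀ N : ℕ, ∃ C δ : ℝ, 0 < δ ∧ ∀ σ : ℝ, 0 < σ → σ ≤ δ → ∀ (E : ℝ) (ψ : T d L → ℝ),
    (∀ x, 0 < ψ x) → (∀ x, HT σ ξ ψ x = E * ψ x) →
      |E - ∑ n ∈ Finset.range (N + 1), e n * σ ^ n| ≤ C * σ ^ (N + 1)

/-- **Theorem.** -/
theorem result (d : ℕ) (hd : 4 ≤ d) : ∃ a : ℕ → ℝ, a 0 = 2 * d ∧ a 1 = G d ∧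
    -- the coefficients are the limits of the mean Taylor coefficients on tori
    (∃ e : (L : ℕ) → (T d (L + 1) → ℝ) → ℕ → ℝ, (∀ L ξ, IsTopTaylor ξ (e L ξ)) ∧
      ∀ n, (∀ L, Integrable (fun ξ => e L ξ (2 * n))
          (Measure.pi fun _ : T d (L + 1) => gaussianReal 0 1)) ∧
        Tendsto (fun L : ℕ => ∫ ξ, e L ξ (2 * n)
          ∂(Measure.pi fun _ : T d (L + 1) => gaussianReal 0 1)) atTop (𝓝 (a n))) ∧
    ∀ η : ℝ, 0 < η → η ≤ 1 → ∃ k K : ℝ, 0 < k ∧ 0 < K ∧ ∃ Es : ℝ → ℝ,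
      -- the asymptotic expansion of the effective edge
      (∀ N : ℕ, ∃ C : ℝ, ∀ σ : ℝ, 0 < σ → σ ≤ k →
        |Es σ - ∑ n ∈ Finset.range (N + 1), a n * σ ^ (2 * n)| ≤ C * σ ^ (2 * (N + 1))) ∧
      ∀ σ : ℝ, 0 < σ → σ ≤ k →
        -- (1) on `ℤ^d`: `ℓ²`-eigenfunctions with `|E| ≥ Es - κ` are spread out
        (∃ A : Set ((Fin d → ℤ) → ℝ), MeasurableSet A ∧
          1 - Real.exp (-(k * sc d σ)) ≤
            (Measure.infinitePi fun _ : Fin d → ℤ => gaussianReal 0 1).real A ∧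
          ∀ ξ ∈ A, ∀ κ : ℝ, Real.exp (-(k * sc d σ)) ≤ κ → κ ≤ 1 → ∀ E : ℝ, Es σ - κ ≤ |E| →
            SpreadOut σ ξ E (K * κ ^ ((d : ℝ) / 2)) (Real.exp (k * sc d σ))) ∧
        -- (2) on tori the top eigenvector is flat, the top eigenvalue is `Es + O(1/L²)`
        (∀ (L : ℕ) [NeZero L], (L : ℝ) ≤ Real.exp (k * sc d σ) →
          ∃ A : Set (T d L → ℝ), MeasurableSet A ∧
            1 - Real.exp (-(k * sc d σ)) ≤ (Measure.pi fun _ : T d L => gaussianReal 0 1).real A ∧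
            ∀ ξ ∈ A, ∃ (E : ℝ) (ψ : T d L → ℝ), |E - Es σ| ≤ K / (L : ℝ) ^ 2 ∧
              (∀ x, 1 ≤ ψ x ∧ ψ x ≤ 1 + η) ∧ ∀ x, HT σ ξ ψ x = E * ψ x) ∧
        -- (3) exponential localization for `|E| ≥ Es + κ`
        ∀ κ : ℝ, Real.exp (-(k * sc d σ)) ≤ κ → κ ≤ 1 →
          ∀ᵐ ξ ∂(Measure.infinitePi fun _ : Fin d → ℤ => gaussianReal 0 1),
            Localized (H σ ξ) {E | Es σ + κ ≤ |E|}
              (k * Real.sqrt κ / Real.log (2 / (κ * σ))) :=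
  Pool.Agent.Y661.EX.mainG d hd

end Pool.Agent.Results.MP_1906c1_mp.EdgeExpansion
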